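import Mathlib

-- part MP_097dd0_an.Nerve
section

/-!
Weak compactness of balls in a Hilbert space: a family of closed balls with the finite
intersection property has a common point.  For a point-finite family this gives the ascending
chain condition for finite subfamilies with a common point.
-/

set_option autoImplicit false

namespace Pool.Agent.MP_097dd0_an

open Metric

variable {H : Type*} [NormedAddCommGroup H] [InnerProductSpace ℝ H] [CompleteSpace H]

theorem exists_common_point {I : Type*} (x : I → H) (r : I → ℝ) (A : Set I)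
    (hA : ∀ F : Finset I, (F : Set I) ⊆ A → ∃ p : H, ∀ i ∈ F, p ∈ closedBall (x i) (r i)) :
    ∃ p : H, ∀ i ∈ A, p ∈ closedBall (x i) (r i) := by
  classical
  rcases A.eq_empty_or_nonempty with rfl | ⟨i₀, hi₀⟩
  · exact ⟨0, by simp⟩
  let T := InnerProductSpace.toDual ℝ H
  let K : I → Set (WeakDual ℝ H) := fun i =>
    WeakDual.toStrongDual ⁻¹' closedBall (T (x i)) (r i)
  have hK : ∀ i, IsCompact (K i) := fun i => WeakDual.isCompact_closedBall (T (x i)) (r i)
  have key : (K i₀ ∩ ⋂ i : A, K i).Nonempty := by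
    refine (hK i₀).inter_iInter_nonempty (fun i : A => K i) (fun i => (hK i).isClosed) ?_
    intro u
    obtain ⟨p, hp⟩ := hA (insert i₀ (u.image Subtype.val)) (by
      intro j hj
      simp only [Finset.coe_insert, Finset.coe_image, Set.mem_insert_iff, Set.mem_image,
        Finset.mem_coe] at hj
      rcases hj with rfl | ⟨k, -, rfl⟩
      · exact hi₀
      · exact k.2)
    have hmem : ∀ i, p ∈ closedBall (x i) (r i) →
        (WeakDual.toStrongDual.symm (T p)) ∈ K i := by
      intro i hi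
      simp only [K, Set.mem_preimage, LinearEquiv.apply_symm_apply, mem_closedBall]
      rw [T.dist_map]
      exact hi
    refine ⟨WeakDual.toStrongDual.symm (T p), hmem _ (hp _ (Finset.mem_insert_self _ _)), ?_⟩
    simp only [Set.mem_iInter]
    intro i hi
    exact hmem _ (hp _ (Finset.mem_insert_of_mem (Finset.mem_image_of_mem _ hi)))
  obtain ⟨φ, -, hφ⟩ := key
  refine ⟨T.symm (WeakDual.toStrongDual φ), fun i hi => ?_⟩
  have h1 : φ ∈ K i := Set.mem_iInter.1 hφ ⟨i, hi⟩
  simp only [K, Set.mem_preimage, mem_closedBall] at h1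
  rw [mem_closedBall, ← T.dist_map]
  simpa using h1

theorem exists_maximal {I : Type*} (x : I → H) (r : I → ℝ)
    (hfin : ∀ y : H, {i | y ∈ closedBall (x i) (r i)}.Finite)
    (P : Finset I → Prop) (h0 : P ∅)
    (hP : ∀ F, P F → ∃ p : H, ∀ i ∈ F, p ∈ closedBall (x i) (r i)) :
    ∃ F, P F ∧ ∀ F', P F' → F ⊆ F' → F' ⊆ F := by
  classical
  by_contra hcon
  push Not at hcon
  have step : ∀ F : {F // P F}, ∃ F' : {F // P F}, F.1 ⊂ F'.1 := by
    intro F
    obtain ⟨F', h1, h2, h3⟩ := hcon F.1 F.2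
    exact ⟨⟨F', h1⟩, Finset.ssubset_def.2 ⟨h2, h3⟩⟩
  choose g hg using step
  let s : ℕ → {F // P F} := fun n => g^[n] ⟨∅, h0⟩
  have hs : ∀ n, (s n).1 ⊂ (s (n + 1)).1 := by
    intro n
    have : s (n + 1) = g (s n) := Function.iterate_succ_apply' g n _
    rw [this]
    exact hg _
  have hmono : StrictMono fun n => (s n).1 := strictMono_nat_of_lt_succ hs
  have hcard : ∀ n, n ≤ (s n).1.card := by
    intro n
    induction n with
    | zero => exact Nat.zero_le _
    | succ n ih => exact Nat.succ_le_of_lt (lt_of_le_of_lt ih (Finset.card_lt_card (hs n)))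
  obtain ⟨p, hp⟩ := exists_common_point x r (⋃ n, ((s n).1 : Set I)) (by
    intro F hF
    have : ∃ n, F ⊆ (s n).1 := by
      induction F using Finset.induction_on with
      | empty => exact ⟨0, Finset.empty_subset _⟩
      | insert a F ha ih =>
        obtain ⟨n, hn⟩ := ih (fun j hj => hF (by simp [Finset.mem_coe.1 hj]))
        obtain ⟨m, hm⟩ := Set.mem_iUnion.1 (hF (Finset.mem_coe.2 (Finset.mem_insert_self a F)))
        refine ⟨max n m, Finset.insert_subset ?_ ?_⟩
        · exact hmono.monotone (le_max_right n m) (Finset.mem_coe.1 hm)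
        · exact hn.trans (hmono.monotone (le_max_left n m))
    obtain ⟨n, hn⟩ := this
    obtain ⟨q, hq⟩ := hP _ (s n).2
    exact ⟨q, fun i hi => hq i (hn hi)⟩)
  have hsub : ∀ n, (s n).1 ⊆ (hfin p).toFinset := by
    intro n i hi
    simp only [Set.Finite.mem_toFinset, Set.mem_ofPred_eq]
    exact hp i (Set.mem_iUnion.2 ⟨n, Finset.mem_coe.2 hi⟩)
  have h1 := Finset.card_le_card (hsub ((hfin p).toFinset.card + 1))
  have h2 := hcard ((hfin p).toFinset.card + 1)
  omega

end Pool.Agent.MP_097dd0_an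

end

-- part MP_097dd0_an.Sphere
section

/-!
The maximal face argument: near any admissible point the set of points lying in no open ball of
the family contains a whole sphere of finite codimension.
-/

set_option autoImplicit false

namespace Pool.Agent.MP_097dd0_an

open Metric
open scoped RealInnerProductSpace

variable {H : Type*} [NormedAddCommGroup H] [InnerProductSpace ℝ H] [CompleteSpace H]

omit [CompleteSpace H] in
theorem norm_sq_shift (y u z : H) :
    ‖y + u - z‖ ^ 2 = ‖y - z‖ ^ 2 - 2 * ⟪u, z - y⟫ + ‖u‖ ^ 2 := by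
  have h : y + u - z = u - (z - y) := by abel
  rw [h, norm_sub_sq_real, norm_sub_rev z y]
  ring

omit [InnerProductSpace ℝ H] [CompleteSpace H] in
theorem mem_closedBall_of_sq {p z : H} {ρ : ℝ} (hρ : 0 < ρ) (h : ‖p - z‖ ^ 2 ≤ ρ ^ 2) :
    p ∈ closedBall z ρ := by
  rw [mem_closedBall, dist_eq_norm]
  exact le_of_pow_le_pow_left₀ two_ne_zero hρ.le h

theorem exists_sphere {I : Type*} (x : I → H) (r : I → ℝ) (hr : ∀ i, 0 < r i)
    (hfin : ∀ y : H, {i | y ∈ closedBall (x i) (r i)}.Finite)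
    (y : H) (s : ℝ) (hs : 0 < s) (hy : ∀ i, r i ^ 2 ≤ ‖y - x i‖ ^ 2 + s) (G : Finset H) :
    ∃ (G' : Finset H) (u₀ : H), G ⊆ G' ∧ (∀ g ∈ G, ⟪u₀, g⟫ = 0) ∧ ‖u₀‖ ^ 2 < s ∧
      ∀ u : H, (∀ g ∈ G', ⟪u - u₀, g⟫ = 0) → ‖u‖ ^ 2 = s →
        ∀ i, r i ^ 2 ≤ ‖y + u - x i‖ ^ 2 := by
  classical
  let ψ : I → H → ℝ := fun i u => ‖y - x i‖ ^ 2 - r i ^ 2 + s - 2 * ⟪u, x i - y⟫
  have hψ : ∀ i u, ‖y + u - x i‖ ^ 2 - r i ^ 2 = ψ i u - (s - ‖u‖ ^ 2) := by
    intro i u
    rw [norm_sq_shift]
    simp only [ψ]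
    ring
  have hψmem : ∀ i u, ‖u‖ ^ 2 ≤ s → ψ i u ≤ 0 → y + u ∈ closedBall (x i) (r i) := by
    intro i u hu h
    apply mem_closedBall_of_sq (hr i)
    have := hψ i u
    linarith
  have hψaff : ∀ i (u v : H) (t : ℝ), ψ i (u + t • (v - u)) = (1 - t) * ψ i u + t * ψ i v := by
    intro i u v t
    simp only [ψ, inner_add_left, inner_sub_left, real_inner_smul_left]
    ring
  let P : Finset I → Prop := fun F => ∃ u₀ : H, (∀ g ∈ G, ⟪u₀, g⟫ = 0) ∧ ‖u₀‖ ^ 2 < s ∧
    (∀ i, 0 ≤ ψ i u₀) ∧ ∀ i ∈ F, ψ i u₀ = 0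
  have h0 : P ∅ := by
    refine ⟨0, by simp, by simpa using hs, fun i => ?_, by simp⟩
    have := hy i
    simp only [ψ, inner_zero_left]
    linarith
  have hP : ∀ F, P F → ∃ p : H, ∀ i ∈ F, p ∈ closedBall (x i) (r i) := by
    rintro F ⟨u₀, -, hu, -, hF⟩
    exact ⟨y + u₀, fun i hi => hψmem i u₀ hu.le (hF i hi).le⟩
  obtain ⟨F, ⟨u₀, hG, hu₀, hpos, hF⟩, hmax⟩ := exists_maximal x r hfin P h0 hP
  refine ⟨G ∪ F.image (fun i => x i - y), u₀, Finset.subset_union_left, hG, hu₀, ?_⟩
  intro u hu hus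
  have huF : ∀ i ∈ F, ψ i u = 0 := by
    intro i hi
    have h1 := hu (x i - y) (Finset.mem_union_right _ (Finset.mem_image_of_mem _ hi))
    have h2 := hF i hi
    rw [inner_sub_left] at h1
    simp only [ψ] at h2 ⊢
    linarith
  suffices h : ∀ i, 0 ≤ ψ i u by
    intro i
    have := hψ i u
    have := h i
    linarith
  by_contra hneg
  push Not at hneg
  have hJfin : {i | ψ i u < 0}.Finite :=
    (hfin (y + u)).subset fun i hi => hψmem i u hus.le (le_of_lt hi)
  have hJne : hJfin.toFinset.Nonempty := by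
    obtain ⟨i, hi⟩ := hneg
    exact ⟨i, by simpa using hi⟩
  obtain ⟨j, hj, hjmin⟩ := hJfin.toFinset.exists_min_image
    (fun i => ψ i u₀ / (ψ i u₀ - ψ i u)) hJne
  have hj' : ψ j u < 0 := by simpa using hj
  set t : ℝ := ψ j u₀ / (ψ j u₀ - ψ j u) with ht
  have hden : 0 < ψ j u₀ - ψ j u := by have := hpos j; linarith
  have ht0 : 0 ≤ t := div_nonneg (hpos j) hden.le
  have ht1 : t < 1 := by
    rw [ht, div_lt_one hden]
    linarith
  have hnorm : ‖u₀ + t • (u - u₀)‖ ^ 2 < s := by
    have e : u₀ + t • (u - u₀) = (1 - t) • u₀ + t • u := by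
      rw [smul_sub, sub_smul, one_smul]
      abel
    have h1 : ‖u₀ + t • (u - u₀)‖ ≤ (1 - t) * ‖u₀‖ + t * ‖u‖ := by
      rw [e]
      refine (norm_add_le _ _).trans ?_
      rw [norm_smul, norm_smul, Real.norm_of_nonneg ht0, Real.norm_of_nonneg (by linarith)]
    have h2 : ‖u₀‖ < ‖u‖ := by
      apply lt_of_pow_lt_pow_left₀ 2 (norm_nonneg _)
      linarith
    have h3 : ‖u₀ + t • (u - u₀)‖ < ‖u‖ := by nlinarith
    rw [← hus]
    exact pow_lt_pow_left₀ h3 (norm_nonneg _) two_ne_zero
  have hP' : P (insert j F) := by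
    refine ⟨u₀ + t • (u - u₀), ?_, hnorm, ?_, ?_⟩
    · intro g hg
      rw [inner_add_left, real_inner_smul_left, hG g hg, hu g (Finset.mem_union_left _ hg)]
      ring
    · intro i
      rw [hψaff]
      by_cases hi : ψ i u < 0
      · have h1 := hjmin i (by simpa using hi)
        have hd : 0 < ψ i u₀ - ψ i u := by have := hpos i; linarith
        rw [le_div_iff₀ hd] at h1
        linarith
      · push Not at hi
        have := hpos i
        have : 0 ≤ 1 - t := by linarith
        positivity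
    · intro i hi
      rw [hψaff]
      rcases Finset.mem_insert.1 hi with rfl | hi
      · have : t * (ψ i u₀ - ψ i u) = ψ i u₀ := by
          rw [ht]
          field_simp
        linarith
      · rw [hF i hi, huF i hi]
        ring
  have hjF : j ∈ F := hmax _ hP' (Finset.subset_insert _ _) (Finset.mem_insert_self _ _)
  have := huF j hjF
  linarith

end Pool.Agent.MP_097dd0_an

end
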