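import Mathlib
import Pool.Agent.MP_097dd0_an.Mg.Sphere

/-!
Near a point of a finite-codimensional sphere that meets no open ball of a point-finite family,
only finitely many balls of radius at least `a` come close.
-/

set_option autoImplicit false

namespace Pool.Agent.MP_097dd0_an

open Metric
open scoped RealInnerProductSpace

variable {H : Type*} [NormedAddCommGroup H] [InnerProductSpace ℝ H] [CompleteSpace H]

omit [CompleteSpace H] in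
theorem tangent_small (c w₀ X τ' : H) (ρ a ρ' δ κ : ℝ) (G : Finset H)
    (hρ : 0 < ρ) (ha : 0 < a) (hw₀ : ‖w₀‖ = ρ) (hw₀G : ∀ g ∈ G, ⟪w₀, g⟫ = 0)
    (haρ' : a ≤ ρ') (hκ : κ = 1 / (8 * (ρ / a + 1))) (hδ : δ ≤ ρ * κ / 8)
    (hZ : ∀ w : H, (∀ g ∈ G, ⟪w, g⟫ = 0) → ‖w‖ = ρ → ρ' ^ 2 ≤ ‖c + w - (c + w₀ + X)‖ ^ 2)
    (hX : ‖X‖ ≤ ρ' + δ)
    (hτG : ∀ g ∈ G, ⟪τ', g⟫ = 0) (hτw : ⟪τ', w₀⟫ = 0) (hτX : ⟪τ', X⟫ = ‖τ'‖ ^ 2) :
    ‖τ'‖ ≤ ‖X‖ / 4 := by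
  have hR : ρ' ≤ ‖X‖ := by
    have h := hZ w₀ hw₀G hw₀
    have e : c + w₀ - (c + w₀ + X) = -X := by abel
    rw [e, norm_neg] at h
    exact le_of_pow_le_pow_left₀ two_ne_zero (norm_nonneg _) h
  rcases eq_or_ne τ' 0 with rfl | hτ0
  · simp only [norm_zero]
    positivity
  have hτpos : 0 < ‖τ'‖ := norm_pos_iff.2 hτ0
  have hq : 0 < ρ / a + 1 := by positivity
  have hκpos : 0 < κ := by rw [hκ]; positivity
  have hκq : κ * (ρ / a + 1) = 1 / 8 := by rw [hκ]; field_simp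
  have hκ1 : κ ≤ 1 / 8 := by
    have : 0 < ρ / a := by positivity
    nlinarith
  set μ : ℝ := ρ * κ * Real.sqrt (2 - κ ^ 2) with hμ
  have hsq : Real.sqrt (2 - κ ^ 2) ^ 2 = 2 - κ ^ 2 := Real.sq_sqrt (by nlinarith)
  have hsq1 : 1 ≤ Real.sqrt (2 - κ ^ 2) := by
    apply Real.le_sqrt_of_sq_le
    nlinarith
  have hμge : ρ * κ ≤ μ := by
    have : 0 < ρ * κ := by positivity
    nlinarith
  have hμpos : 0 < μ := lt_of_lt_of_le (by positivity) hμge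
  have hμsq : μ ^ 2 = ρ ^ 2 * κ ^ 2 * (2 - κ ^ 2) := by
    rw [hμ, mul_pow, hsq]
    ring
  set τ : H := (μ / ‖τ'‖) • τ' with hτ
  have hτnorm : ‖τ‖ = μ := by
    rw [hτ, norm_smul, Real.norm_of_nonneg (by positivity)]
    field_simp
  have hτw' : ⟪τ, w₀⟫ = 0 := by rw [hτ, real_inner_smul_left, hτw, mul_zero]
  have hτX' : ⟪τ, X⟫ = μ * ‖τ'‖ := by
    rw [hτ, real_inner_smul_left, hτX]
    field_simp
  have hwG : ∀ g ∈ G, ⟪(1 - κ ^ 2) • w₀ + τ, g⟫ = 0 := by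
    intro g hg
    rw [inner_add_left, real_inner_smul_left, hw₀G g hg, hτ, real_inner_smul_left, hτG g hg]
    ring
  have hwn : ‖(1 - κ ^ 2) • w₀ + τ‖ = ρ := by
    have h : ‖(1 - κ ^ 2) • w₀ + τ‖ ^ 2 = ρ ^ 2 := by
      rw [norm_add_sq_real, real_inner_smul_left, real_inner_comm, hτw', hτnorm, norm_smul,
        mul_pow, hw₀, Real.norm_eq_abs, sq_abs, hμsq]
      ring
    exact (pow_left_inj₀ (norm_nonneg _) hρ.le two_ne_zero).1 h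
  have h := hZ _ hwG hwn
  have e : c + ((1 - κ ^ 2) • w₀ + τ) - (c + w₀ + X) = (τ - (κ ^ 2) • w₀) - X := by
    rw [sub_smul, one_smul]
    abel
  have hn : ‖τ - (κ ^ 2) • w₀‖ ^ 2 = 2 * κ ^ 2 * ρ ^ 2 := by
    rw [norm_sub_sq_real, real_inner_smul_right, hτw', hτnorm, hμsq, norm_smul, hw₀,
      Real.norm_of_nonneg (by positivity)]
    ring
  rw [e, norm_sub_sq_real, hn, inner_sub_left, hτX', real_inner_smul_left] at h
  have hcs : ⟪w₀, X⟫ ≤ ρ * ‖X‖ := by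
    rw [← hw₀]
    exact real_inner_le_norm _ _
  set R := ‖X‖ with hRdef
  have haR : a ≤ R := haρ'.trans hR
  have hρ'pos : 0 < ρ' := lt_of_lt_of_le ha haρ'
  have h1 : R ^ 2 - ρ' ^ 2 ≤ 2 * R * δ := by nlinarith
  have h2 : ρ ≤ ρ / a * R := by
    rw [div_mul_eq_mul_div, le_div_iff₀ ha]
    nlinarith
  have h3 : κ ^ 2 * ρ ^ 2 ≤ κ ^ 2 * ρ * (ρ / a * R) := by
    have : 0 ≤ κ ^ 2 * ρ := by positivity
    nlinarith
  have h4 : κ ^ 2 * ⟪w₀, X⟫ ≤ κ ^ 2 * (ρ * R) := by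
    have : 0 ≤ κ ^ 2 := by positivity
    nlinarith
  have h5 : μ * ‖τ'‖ ≤ κ ^ 2 * ρ * (ρ / a * R) + κ ^ 2 * (ρ * R) + R * δ := by linarith
  have h6 : κ ^ 2 * ρ * (ρ / a * R) + κ ^ 2 * (ρ * R) = ρ * κ * R / 8 := by
    have : κ ^ 2 * ρ * (ρ / a * R) + κ ^ 2 * (ρ * R) = ρ * κ * R * (κ * (ρ / a + 1)) := by ring
    rw [this, hκq]
    ring
  have hRpos : 0 < R := lt_of_lt_of_le ha haR
  have h7 : R * δ ≤ ρ * κ * R / 8 := by nlinarith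
  have h8 : μ * ‖τ'‖ ≤ μ * (R / 4) := by nlinarith
  exact le_of_mul_le_mul_left h8 hμpos

omit [CompleteSpace H] in
theorem locally_finite_large {I : Type*} (x : I → H) (r : I → ℝ)
    (hfin : ∀ y : H, {i | y ∈ closedBall (x i) (r i)}.Finite)
    (c w₀ : H) (ρ : ℝ) (hρ : 0 < ρ) (G : Finset H) (hw₀ : ‖w₀‖ = ρ)
    (hw₀G : ∀ g ∈ G, ⟪w₀, g⟫ = 0)
    (hZ : ∀ w : H, (∀ g ∈ G, ⟪w, g⟫ = 0) → ‖w‖ = ρ → ∀ i, r i ^ 2 ≤ ‖c + w - x i‖ ^ 2)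
    (a : ℝ) (ha : 0 < a) :
    ∃ δ : ℝ, 0 < δ ∧
      {j | a ≤ r j ∧ ∃ y ∈ closedBall (x j) (r j), dist y (c + w₀) < δ}.Finite := by
  classical
  let N : Submodule ℝ H := Submodule.span ℝ ((insert w₀ G : Finset H) : Set H)
  have : FiniteDimensional ℝ N := FiniteDimensional.span_of_finite ℝ (Finset.finite_toSet _)
  have hcpt : IsCompact (((↑) : N → H) '' closedBall (0 : N) 1) :=
    (isCompact_closedBall (0 : N) 1).image continuous_subtype_val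
  obtain ⟨t, -, htfin, ht⟩ := finite_cover_balls_of_compact hcpt (e := 1 / 4) (by norm_num)
  set κ : ℝ := 1 / (8 * (ρ / a + 1)) with hκ
  have hκpos : 0 < κ := by rw [hκ]; positivity
  refine ⟨min (a / 2) (ρ * κ / 8), lt_min (by positivity) (by positivity), ?_⟩
  refine (htfin.biUnion (fun v _ => hfin (c + w₀ + a • v))).subset ?_
  rintro j ⟨haj, y, hy, hyd⟩
  set δ := min (a / 2) (ρ * κ / 8) with hδ
  set X : H := x j - (c + w₀) with hXdef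
  have hxj : x j = c + w₀ + X := by rw [hXdef]; abel
  have hXle : ‖X‖ < r j + δ := by
    have h1 : dist (x j) (c + w₀) ≤ dist (x j) y + dist y (c + w₀) := dist_triangle _ _ _
    rw [mem_closedBall, dist_comm] at hy
    rw [dist_eq_norm] at h1
    linarith
  obtain ⟨n, hn, τ', hτ', hdec⟩ := N.exists_add_mem_mem_orthogonal X
  have hτN : ∀ g ∈ N, ⟪τ', g⟫ = 0 := fun g hg => by
    rw [real_inner_comm]
    exact (Submodule.mem_orthogonal N τ').1 hτ' g hg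
  have hτG : ∀ g ∈ G, ⟪τ', g⟫ = 0 := fun g hg =>
    hτN g (Submodule.subset_span (by simp [hg]))
  have hτw : ⟪τ', w₀⟫ = 0 := hτN w₀ (Submodule.subset_span (by simp))
  have hτX : ⟪τ', X⟫ = ‖τ'‖ ^ 2 := by
    rw [hdec, inner_add_right, hτN n hn, real_inner_self_eq_norm_sq]
    ring
  have hsmall : ‖τ'‖ ≤ ‖X‖ / 4 :=
    tangent_small c w₀ X τ' ρ a (r j) δ κ G hρ ha hw₀ hw₀G haj hκ (min_le_right _ _)
      (fun w h1 h2 => by rw [← hxj]; exact hZ w h1 h2 j) hXle.le hτG hτw hτX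
  have hR : r j ≤ ‖X‖ := by
    have h := hZ w₀ hw₀G hw₀ j
    rw [norm_sub_rev] at h
    exact le_of_pow_le_pow_left₀ two_ne_zero (norm_nonneg _) h
  have hRpos : 0 < ‖X‖ := lt_of_lt_of_le ha (haj.trans hR)
  have hnle : ‖n‖ ≤ ‖X‖ := by
    have h : ‖X‖ ^ 2 = ‖n‖ ^ 2 + ‖τ'‖ ^ 2 := by
      rw [hdec, norm_add_sq_real, real_inner_comm, hτN n hn]
      ring
    apply le_of_pow_le_pow_left₀ two_ne_zero (norm_nonneg _)
    nlinarith [sq_nonneg ‖τ'‖]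
  have hmem : (‖X‖⁻¹ • n) ∈ ((↑) : N → H) '' closedBall (0 : N) 1 := by
    refine ⟨⟨‖X‖⁻¹ • n, N.smul_mem _ hn⟩, ?_, rfl⟩
    rw [mem_closedBall, dist_zero_right]
    change ‖‖X‖⁻¹ • n‖ ≤ 1
    rw [norm_smul, norm_inv, norm_norm, inv_mul_le_iff₀ hRpos]
    linarith
  obtain ⟨v, hv, hvn⟩ := Set.mem_iUnion₂.1 (ht hmem)
  refine Set.mem_iUnion₂.2 ⟨v, hv, ?_⟩
  rw [mem_ball, dist_eq_norm] at hvn
  change c + w₀ + a • v ∈ closedBall (x j) (r j)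
  rw [mem_closedBall, dist_eq_norm, hxj]
  have e : c + w₀ + a • v - (c + w₀ + X) =
      -(a • (‖X‖⁻¹ • n - v)) - (a * ‖X‖⁻¹) • τ' - (1 - a * ‖X‖⁻¹) • X := by
    have : X = n + τ' := hdec
    rw [sub_smul, one_smul, smul_sub, mul_smul, mul_smul]
    conv_rhs => rw [show ‖X‖⁻¹ • X = ‖X‖⁻¹ • n + ‖X‖⁻¹ • τ' by rw [← smul_add, ← this]]
    rw [smul_add]
    abel
  have hfrac : a * ‖X‖⁻¹ ≤ 1 := by
    rw [mul_inv_le_iff₀ hRpos]
    linarith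
  have b1 : ‖-(a • (‖X‖⁻¹ • n - v))‖ ≤ a / 4 := by
    rw [norm_neg, norm_smul, Real.norm_of_nonneg ha.le]
    nlinarith
  have b2 : ‖(a * ‖X‖⁻¹) • τ'‖ ≤ a / 4 := by
    rw [norm_smul, Real.norm_of_nonneg (by positivity)]
    have : a * ‖X‖⁻¹ * ‖τ'‖ ≤ a * ‖X‖⁻¹ * (‖X‖ / 4) :=
      mul_le_mul_of_nonneg_left hsmall (by positivity)
    have e2 : a * ‖X‖⁻¹ * (‖X‖ / 4) = a / 4 := by field_simp
    linarith
  have b3 : ‖(1 - a * ‖X‖⁻¹) • X‖ = ‖X‖ - a := by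
    rw [norm_smul, Real.norm_of_nonneg (by linarith)]
    field_simp
  have hδa : δ ≤ a / 2 := min_le_left _ _
  rw [e]
  have t1 := norm_sub_le (-(a • (‖X‖⁻¹ • n - v)) - (a * ‖X‖⁻¹) • τ') ((1 - a * ‖X‖⁻¹) • X)
  have t2 := norm_sub_le (-(a • (‖X‖⁻¹ • n - v))) ((a * ‖X‖⁻¹) • τ')
  linarith

end Pool.Agent.MP_097dd0_an
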