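import Mathlib
import Pool.Agent.MP_097dd0_an.Mg.Local

/-!
No infinite-dimensional real Hilbert space has a point-finite covering by closed balls of
positive radii.
-/

set_option autoImplicit false

namespace Pool.Agent.MP_097dd0_an

open Metric
open scoped RealInnerProductSpace

variable {H : Type*} [NormedAddCommGroup H] [InnerProductSpace ℝ H] [CompleteSpace H]

omit [CompleteSpace H] in
theorem exists_orth (hinf : ¬ FiniteDimensional ℝ H) (G : Finset H) (ρ : ℝ) (hρ : 0 ≤ ρ) :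
    ∃ w : H, (∀ g ∈ G, ⟪w, g⟫ = 0) ∧ ‖w‖ = ρ := by
  let N : Submodule ℝ H := Submodule.span ℝ (G : Set H)
  have hN : FiniteDimensional ℝ N := FiniteDimensional.span_of_finite ℝ (Finset.finite_toSet _)
  have hne : Nᗮ ≠ ⊥ := by
    intro h
    have htop : N = ⊤ := Submodule.orthogonal_eq_bot_iff.1 h
    apply hinf
    rw [htop] at hN
    exact Module.Finite.equiv Submodule.topEquiv
  obtain ⟨w, hw, hw0⟩ := Submodule.exists_mem_ne_zero_of_ne_bot hne
  have hpos : 0 < ‖w‖ := norm_pos_iff.2 hw0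
  refine ⟨(ρ / ‖w‖) • w, fun g hg => ?_, ?_⟩
  · rw [real_inner_smul_left, real_inner_comm,
      (Submodule.mem_orthogonal N w).1 hw g (Submodule.subset_span hg), mul_zero]
  · rw [norm_smul, Real.norm_of_nonneg (by positivity)]
    field_simp

theorem exists_sphere' {I : Type*} (x : I → H) (r : I → ℝ)
    (hr : ∀ i, 0 < r i) (hfin : ∀ y : H, {i | y ∈ closedBall (x i) (r i)}.Finite)
    (y : H) (s : ℝ) (hs : 0 < s) (hy : ∀ i, r i ^ 2 ≤ ‖y - x i‖ ^ 2 + s) (G : Finset H) :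
    ∃ (G' : Finset H) (c : H) (ρ : ℝ), 0 < ρ ∧ ∀ w : H, (∀ g ∈ G', ⟪w, g⟫ = 0) → ‖w‖ = ρ →
      (∀ i, r i ^ 2 ≤ ‖c + w - x i‖ ^ 2) ∧ ‖c + w - y‖ ^ 2 = s ∧
        ∀ g ∈ G, ⟪c + w - y, g⟫ = 0 := by
  classical
  obtain ⟨G', u₀, hGG', hG, hu₀, h⟩ := exists_sphere x r hr hfin y s hs hy G
  refine ⟨insert u₀ G', y + u₀, Real.sqrt (s - ‖u₀‖ ^ 2), Real.sqrt_pos.2 (by linarith), ?_⟩
  intro w hw hwn
  have e : y + u₀ + w - y = u₀ + w := by abel
  have hn : ‖u₀ + w‖ ^ 2 = s := by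
    rw [norm_add_sq_real, real_inner_comm, hw u₀ (Finset.mem_insert_self _ _), hwn,
      Real.sq_sqrt (by linarith)]
    ring
  refine ⟨fun i => ?_, by rw [e, hn], fun g hg => ?_⟩
  · rw [add_assoc]
    refine h (u₀ + w) (fun g hg => ?_) hn i
    rw [add_sub_cancel_left]
    exact hw g (Finset.mem_insert_of_mem hg)
  · rw [e, inner_add_left, hG g hg, hw g (Finset.mem_insert_of_mem (hGG' hg)), add_zero]

theorem no_point_finite_cover (hinf : ¬ FiniteDimensional ℝ H) {I : Type*} (x : I → H)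
    (r : I → ℝ) (hr : ∀ i, 0 < r i)
    (hfin : ∀ y : H, {i | y ∈ closedBall (x i) (r i)}.Finite)
    (hcov : ∀ y : H, ∃ i, y ∈ closedBall (x i) (r i)) : False := by
  classical
  let Z : Set H := {z | ∀ i, r i ^ 2 ≤ ‖z - x i‖ ^ 2}
  have hZc : IsClosed Z := by
    have : Z = ⋂ i, {z | r i ^ 2 ≤ ‖z - x i‖ ^ 2} := by
      ext z
      simp [Z]
    rw [this]
    exact isClosed_iInter fun i => isClosed_le continuous_const (by fun_prop)
  have hZne : Z.Nonempty := by
    obtain ⟨M, hM⟩ := ((hfin 0).image fun i => r i ^ 2).bddAbove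
    have hy : ∀ i, r i ^ 2 ≤ ‖(0 : H) - x i‖ ^ 2 + (max M 0 + 1) := by
      intro i
      by_cases hi : (0 : H) ∈ closedBall (x i) (r i)
      · have h1 : r i ^ 2 ≤ M := hM ⟨i, hi, rfl⟩
        have h2 := le_max_left M 0
        have h3 := sq_nonneg ‖(0 : H) - x i‖
        linarith
      · rw [mem_closedBall, dist_eq_norm, not_le] at hi
        have h1 : r i ^ 2 ≤ ‖(0 : H) - x i‖ ^ 2 := pow_le_pow_left₀ (hr i).le hi.le 2
        have h2 := le_max_right M 0
        linarith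
    obtain ⟨G', c, ρ, hρ, h⟩ := exists_sphere' x r hr hfin 0 (max M 0 + 1)
      (by have := le_max_right M 0; linarith) hy ∅
    obtain ⟨w, hw, hwn⟩ := exists_orth hinf G' ρ hρ.le
    exact ⟨c + w, (h w hw hwn).1⟩
  have : CompleteSpace Z := hZc.completeSpace_coe
  have : Nonempty Z := hZne.to_subtype
  let A : ℕ → Set Z := fun n =>
    {z | ∃ j, 1 / ((n : ℝ) + 1) ≤ r j ∧ (z : H) ∈ closedBall (x j) (r j)}
  have hU : ⋃ n, closure (A n) = Set.univ := by
    refine Set.eq_univ_of_forall fun z => ?_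
    obtain ⟨j, hj⟩ := hcov z
    obtain ⟨n, hn⟩ := exists_nat_one_div_lt (hr j)
    exact Set.mem_iUnion.2 ⟨n, subset_closure ⟨j, hn.le, hj⟩⟩
  obtain ⟨n, z, hz⟩ := nonempty_interior_of_iUnion_of_closed (fun n => isClosed_closure) hU
  obtain ⟨η, hη, hball⟩ := Metric.mem_nhds_iff.1 (mem_interior_iff_mem_nhds.1 hz)
  set a : ℝ := 1 / ((n : ℝ) + 1) with ha
  have hapos : 0 < a := by rw [ha]; positivity
  obtain ⟨G', c, ρ, hρ, h⟩ := exists_sphere' x r hr hfin (z : H) ((η / 3) ^ 2) (by positivity)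
    (fun i => by have := z.2 i; have := sq_nonneg (η / 3); linarith) ∅
  obtain ⟨w₀, hw₀G, hw₀⟩ := exists_orth hinf G' ρ hρ.le
  obtain ⟨δ, hδ, hF⟩ := locally_finite_large x r hfin c w₀ ρ hρ G' hw₀ hw₀G
    (fun w h1 h2 => (h w h1 h2).1) a hapos
  obtain ⟨hz'Z, hz'd, -⟩ := h w₀ hw₀G hw₀
  set z' : H := c + w₀ with hz'
  set ε : ℝ := min (δ / 2) (η / 3) with hε
  have hεpos : 0 < ε := lt_min (by positivity) (by positivity)
  obtain ⟨G'', c', ρ', hρ', h'⟩ := exists_sphere' x r hr hfin z' (ε ^ 2) (by positivity)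
    (fun i => by have := hz'Z i; have := sq_nonneg ε; linarith)
    (hF.toFinset.image fun i => x i - z')
  obtain ⟨w₁, hw₁G, hw₁⟩ := exists_orth hinf G'' ρ' hρ'.le
  obtain ⟨hz''Z, hz''d, hz''o⟩ := h' w₁ hw₁G hw₁
  set z'' : H := c' + w₁ with hz''
  have d1 : dist z' z = η / 3 := by
    rw [dist_eq_norm]
    exact (pow_left_inj₀ (norm_nonneg _) (by positivity) two_ne_zero).1 hz'd
  have d2 : dist z'' z' = ε := by
    rw [dist_eq_norm]
    exact (pow_left_inj₀ (norm_nonneg _) hεpos.le two_ne_zero).1 hz''d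
  have hout : ∀ i ∈ hF.toFinset, z'' ∉ closedBall (x i) (r i) := by
    intro i hi hmem
    have h1 := hz''o (x i - z') (Finset.mem_image_of_mem _ hi)
    have h2 := norm_sq_shift z' (z'' - z') (x i)
    rw [h1, hz''d, add_sub_cancel] at h2
    rw [mem_closedBall, dist_eq_norm] at hmem
    have h3 : ‖z'' - x i‖ ^ 2 ≤ r i ^ 2 := pow_le_pow_left₀ (norm_nonneg _) hmem 2
    have h4 := hz'Z i
    have h5 : 0 < ε ^ 2 := by positivity
    linarith
  let O : Set H := ball z' δ ∩ (⋃ i ∈ hF.toFinset, closedBall (x i) (r i))ᶜ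
  have hO : IsOpen O :=
    isOpen_ball.inter (isClosed_biUnion_finset fun i _ => isClosed_closedBall).isOpen_compl
  have hzO : z'' ∈ O := by
    refine ⟨?_, ?_⟩
    · rw [mem_ball, d2]
      have : ε ≤ δ / 2 := min_le_left _ _
      linarith
    · simp only [Set.mem_compl_iff, Set.mem_iUnion, not_exists]
      exact hout
  have hcl : (⟨z'', hz''Z⟩ : Z) ∈ closure (A n) := by
    apply hball
    rw [mem_ball, Subtype.dist_eq]
    have t := dist_triangle z'' z' (z : H)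
    have : ε ≤ η / 3 := min_le_right _ _
    change dist z'' (z : H) < η
    linarith
  obtain ⟨y, hyO, j, hj, hyj⟩ := mem_closure_iff.1 hcl (((↑) : Z → H) ⁻¹' O)
    (hO.preimage continuous_subtype_val) hzO
  apply hyO.2
  simp only [Set.mem_iUnion]
  refine ⟨j, ?_, hyj⟩
  rw [Set.Finite.mem_toFinset]
  exact ⟨hj, y, hyj, hyO.1⟩

theorem not_finiteDimensional_lp :
    ¬ FiniteDimensional ℝ (lp (fun _ : ℝ => ℝ) (2 : ENNReal)) := by
  classical
  intro h
  have horth : Orthonormal ℝ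
      (fun i : ℝ => (lp.single 2 i (1 : ℝ) : lp (fun _ : ℝ => ℝ) (2 : ENNReal))) := by
    rw [orthonormal_iff_ite]
    intro i j
    rw [lp.inner_single_left]
    by_cases hij : i = j
    · subst hij
      simp
    · simp [hij, lp.single_apply]
  have := horth.linearIndependent.finite
  exact not_finite ℝ

end Pool.Agent.MP_097dd0_an
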